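import Pool.Agent.Q293.MDM.Step

/-! # The base: a two-colouring of `K_36` without degree-monotone paths of order 7

The vertex `v = 6 i + j` is in row `i` and column `j`. A degree-monotone path of the first colour meets
every row at most once, one of the second colour every column. The graph was found by a SAT solver. -/

set_option autoImplicit false

namespace Pool.Agent.Q293.MDM

/-- the general certificate: labels -/
lemma length_le_of_cert {A : Type*} {r : A → A → Prop} (N : ℕ) (lo hi lab c : A → ℕ)
    (h1 : ∀ a, lo a ≤ lab a) (h2 : ∀ a, lab a ≤ hi a) (hN : ∀ a, lab a < N)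
    (hc : ∀ a b, c a = c b → lo a = lo b ∧ hi a = hi b)
    (hinj : ∀ a b, c a = c b → lab a = lab b → a = b)
    (hr : ∀ a b, a ≠ b → r a b → hi a < lo b ∨ c a = c b)
    (l : List A) (hl : l.Nodup) (hch : l.IsChain r) : l.length ≤ N := by
  have key : l.Pairwise (fun a b => hi a < lo b ∨ c a = c b) := by
    letI tr : Trans (fun a b => hi a < lo b ∨ c a = c b) (fun a b => hi a < lo b ∨ c a = c b)
        (fun a b => hi a < lo b ∨ c a = c b) := ⟨fun {a b d} hab hbd => by
      rcases hab with hab | hab <;> rcases hbd with hbd | hbd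
      · left
        have := h1 b
        have := h2 b
        omega
      · left
        rw [← (hc _ _ hbd).1]
        exact hab
      · left
        rw [(hc _ _ hab).2]
        exact hbd
      · right
        exact hab.trans hbd⟩
    rw [← List.isChain_iff_pairwise]
    have h6 : l.IsChain (fun a b => a ≠ b) := List.Pairwise.isChain hl
    induction l with
    | nil => simp
    | cons a t ih =>
      cases t with
      | nil => simp
      | cons b t =>
        rw [List.isChain_cons_cons] at hch h6 ⊢
        exact ⟨hr a b h6.1 hch.1, ih (List.Nodup.of_cons hl) hch.2 h6.2⟩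
  have h3 : (l.map lab).Nodup := by
    rw [List.Nodup, List.pairwise_map]
    refine (key.and hl).imp ?_
    rintro a b ⟨h4 | h4, hne⟩ heq
    · have := h1 b
      have := h2 a
      omega
    · exact hne (hinj _ _ h4 heq)
  have h4 : (l.map lab).length ≤ (List.range N).length := by
    apply List.Subperm.length_le
    apply List.Nodup.subperm h3
    intro x hx
    rw [List.mem_map] at hx
    obtain ⟨a, _, rfl⟩ := hx
    exact List.mem_range.2 (hN a)
  simpa using h4

def adjN : ℕ := 10990776377869139862788869121111810533153746673102706081572253874792416708080098569154027921644916419341328178341801605015045638257148188458372947175227742970981666875963852121862768946800153963472616143734685023095968033763944497101421336516680220394303969862054397107058595779805417871424912852883601169486043501446925050324839264735720011124434845342397265660176290657019505981163073728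
def degN : ℕ := 41842830271446036087919087600911787592106211192109281048497825044
def lo1N : ℕ := 191233970842099863881067964661760
def hi1N : ℕ := 231798944792129477245178525004864
def lo2N : ℕ := 214392181479400466297394173232768
def hi2N : ℕ := 225970723088426815399382294644361

def adjB (u v : Fin 36) : Bool := adjN.testBit (36 * u.1 + v.1)
def degB (v : Fin 36) : ℕ := (degN >>> (6 * v.1)) % 64
def tab (T : ℕ) (v : Fin 36) : ℕ := (T >>> (3 * v.1)) % 8
def row (v : Fin 36) : ℕ := v.1 / 6
def col (v : Fin 36) : ℕ := v.1 % 6

lemma adjB_symm : ∀ u v : Fin 36, adjB u v = adjB v u := by decide +kernel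
lemma adjB_irrefl : ∀ u : Fin 36, adjB u u = false := by decide +kernel

def G36 : SimpleGraph (Fin 36) where
  Adj u v := adjB u v = true
  symm := ⟨fun u v h => by rw [adjB_symm]; exact h⟩
  loopless := ⟨fun u h => by rw [adjB_irrefl] at h; exact Bool.false_ne_true h⟩

lemma degB_eq : ∀ u : Fin 36, ((Finset.univ : Finset (Fin 36)).filter (fun v => adjB u v = true)).card
    = degB u := by decide +kernel

lemma deg_eq (u : Fin 36) : deg G36 u = degB u := by
  rw [← degB_eq]
  unfold deg
  rw [← Set.ncard_coe_finset]
  congr 1
  ext v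
  simp [G36]

lemma chk0 : ∀ v : Fin 36, 1 ≤ degB v ∧ degB v + 6 < 36 ∧
    tab lo1N v ≤ row v ∧ row v ≤ tab hi1N v ∧ row v < 6 ∧
    tab lo2N v ≤ col v ∧ col v ≤ tab hi2N v ∧ col v < 6 := by decide +kernel

lemma chk1 : ∀ u v : Fin 36, u ≠ v → adjB u v = true → degB u ≤ degB v →
    tab hi1N u < tab lo1N v ∨ 6 * col u + tab lo1N u = 6 * col v + tab lo1N v := by decide +kernel

lemma chk2 : ∀ u v : Fin 36, u ≠ v → adjB u v = false → degB v ≤ degB u →
    tab hi2N u < tab lo2N v ∨ 6 * row u + tab lo2N u = 6 * row v + tab lo2N v := by decide +kernel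

lemma chk3 : ∀ u v : Fin 36, 6 * col u + tab lo1N u = 6 * col v + tab lo1N v →
    tab lo1N u = tab lo1N v ∧ tab hi1N u = tab hi1N v ∧ (row u = row v → u = v) := by decide +kernel

lemma chk4 : ∀ u v : Fin 36, 6 * row u + tab lo2N u = 6 * row v + tab lo2N v →
    tab lo2N u = tab lo2N v ∧ tab hi2N u = tab hi2N v ∧ (col u = col v → u = v) := by decide +kernel

theorem good36 : Good 6 G36 := by
  refine ⟨by simp, ?_, ?_, ?_, ?_⟩
  · intro v
    rw [deg_eq]
    exact (chk0 v).1
  · intro v
    rw [deg_eq]
    exact (chk0 v).2.1
  · apply length_le_of_cert 6 (tab lo1N) (tab hi1N) row (fun u => 6 * col u + tab lo1N u)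
    · exact fun a => (chk0 a).2.2.1
    · exact fun a => (chk0 a).2.2.2.1
    · exact fun a => (chk0 a).2.2.2.2.1
    · exact fun a b h => ⟨(chk3 a b h).1, (chk3 a b h).2.1⟩
    · exact fun a b h => (chk3 a b h).2.2
    · rintro a b hne ⟨h1, h2⟩
      rw [deg_eq, deg_eq] at h2
      exact chk1 a b hne h1 h2
  · apply length_le_of_cert 6 (tab lo2N) (tab hi2N) col (fun u => 6 * row u + tab lo2N u)
    · exact fun a => (chk0 a).2.2.2.2.2.1
    · exact fun a => (chk0 a).2.2.2.2.2.2.1
    · exact fun a => (chk0 a).2.2.2.2.2.2.2
    · exact fun a b h => ⟨(chk4 a b h).1, (chk4 a b h).2.1⟩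
    · exact fun a b h => (chk4 a b h).2.2
    · rintro a b hne ⟨h1, h2⟩
      rw [deg_eq, deg_eq] at h2
      refine chk2 a b hne ?_ h2
      simpa [G36] using h1

/-- for every `N ≥ 6` there is a good graph -/
theorem exists_good (N : ℕ) (hN : 6 ≤ N) :
    ∃ (V : Type) (_ : Finite V) (G : SimpleGraph V), Good N G := by
  induction N, hN using Nat.le_induction with
  | base => exact ⟨Fin 36, inferInstance, G36, good36⟩
  | succ n hn ih =>
    obtain ⟨V, hV, G, hG⟩ := ih
    exact ⟨V ⊕ (Fin n ⊕ Fin (n + 1)), inferInstance, ext G n, hG.ext_good (by omega)⟩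

end Pool.Agent.Q293.MDM
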