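import Mathlib

/-! # Two-colourings of complete graphs without long degree-monotone paths: the recursion

`Good N G`: the graph `G` has `N ^ 2` vertices, neither `G` nor its complement has a degree-monotone
path with more than `N` vertices, and all degrees are at least `1` and less than `N ^ 2 - N`.
From a good graph `G` for `N` we obtain a good graph for `N + 1`: join `G` completely to `N` new
independent vertices and add a disjoint complete graph on `N + 1` vertices. -/

set_option autoImplicit false

namespace Pool.Agent.Q293.MDM

open Set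

/-- The degree of a vertex. -/
noncomputable def deg {V : Type*} (G : SimpleGraph V) (v : V) : ℕ := (G.neighborSet v).ncard

/-- the two kinds of steps -/
def up {V : Type*} (G : SimpleGraph V) (u v : V) : Prop := G.Adj u v ∧ deg G u ≤ deg G v
def dn {V : Type*} (G : SimpleGraph V) (u v : V) : Prop := ¬ G.Adj u v ∧ deg G v ≤ deg G u

structure Good {V : Type*} (N : ℕ) (G : SimpleGraph V) : Prop where
  card : Nat.card V = N ^ 2
  pos : ∀ v, 1 ≤ deg G v
  lt : ∀ v, deg G v + N < N ^ 2
  no1 : ∀ l : List V, l.Nodup → l.IsChain (up G) → l.length ≤ N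
  no2 : ∀ l : List V, l.Nodup → l.IsChain (dn G) → l.length ≤ N

/-- the extended graph: `inl` old vertices, `inr (inl _)` the `N` independent vertices joined to the
old ones, `inr (inr _)` the new complete graph -/
def ext {V : Type*} (G : SimpleGraph V) (N : ℕ) : SimpleGraph (V ⊕ (Fin N ⊕ Fin (N + 1))) where
  Adj a b := match a, b with
    | .inl u, .inl v => G.Adj u v
    | .inl _, .inr (.inl _) => True
    | .inr (.inl _), .inl _ => True
    | .inr (.inr x), .inr (.inr y) => x ≠ y
    | _, _ => False
  symm := ⟨by
    rintro (u | x | x) (v | y | y) h <;> simp_all [G.adj_comm, eq_comm]⟩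
  loopless := ⟨by
    rintro (u | x | x) h <;> simp_all⟩

variable {V : Type*} [Finite V] {G : SimpleGraph V} {N : ℕ}

lemma deg_old (v : V) : deg (ext G N) (.inl v) = deg G v + N := by
  have h : (ext G N).neighborSet (.inl v) =
      Sum.inl '' (G.neighborSet v) ∪ (fun y : Fin N => Sum.inr (Sum.inl y)) '' Set.univ := by
    ext a
    rcases a with (u | x | x) <;> simp [ext]
  unfold deg
  rw [h, Set.ncard_union_eq ?_ (Set.toFinite _) (Set.toFinite _),
    Set.ncard_image_of_injective _ Sum.inl_injective, Set.ncard_image_of_injective]
  · simp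
  · intro a b hab
    simpa using hab
  · rw [Set.disjoint_left]
    rintro _ ⟨u, _, rfl⟩ ⟨y, _, hy⟩
    simp at hy

omit [Finite V] in
lemma deg_Y (y : Fin N) : deg (ext G N) (.inr (.inl y)) = Nat.card V := by
  have h : (ext G N).neighborSet (.inr (.inl y)) = Sum.inl '' (Set.univ : Set V) := by
    ext a
    rcases a with (u | x | x) <;> simp [ext]
  unfold deg
  rw [h, Set.ncard_image_of_injective _ Sum.inl_injective, Set.ncard_univ]

omit [Finite V] in
lemma deg_X (x : Fin (N + 1)) : deg (ext G N) (.inr (.inr x)) = N := by
  have h : (ext G N).neighborSet (.inr (.inr x)) =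
      (fun y : Fin (N + 1) => Sum.inr (Sum.inr y)) '' ({x}ᶜ : Set (Fin (N + 1))) := by
    ext a
    rcases a with (u | z | z) <;> simp [ext, eq_comm]
  unfold deg
  rw [h, Set.ncard_image_of_injective, Set.ncard_compl, Set.ncard_singleton]
  · simp
  · intro a b hab
    simpa using hab

/-- a list all of whose members are images under `f` is an image -/
lemma exists_map {A B : Type*} (f : A → B) (l : List B) (h : ∀ x ∈ l, ∃ a, x = f a) :
    ∃ l₀ : List A, l = l₀.map f := by
  induction l with
  | nil => exact ⟨[], rfl⟩
  | cons b t ih =>
    obtain ⟨a, ha⟩ := h b (by simp)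
    obtain ⟨t₀, ht⟩ := ih (fun x hx => h x (by simp [hx]))
    exact ⟨a :: t₀, by simp [ha, ht]⟩

/-- if a chain relation preserves a property in both directions, all members have it or none -/
lemma all_or_none {A : Type*} {r : A → A → Prop} (p : A → Prop)
    (hp : ∀ a b, r a b → (p a ↔ p b)) :
    ∀ l : List A, l.IsChain r → (∀ a ∈ l, p a) ∨ (∀ a ∈ l, ¬ p a)
  | [], _ => by simp
  | [a], _ => by
    by_cases h : p a
    · left; simpa using h
    · right; simpa using h
  | a :: b :: t, h => by
    rw [List.isChain_cons_cons] at h
    rcases all_or_none p hp (b :: t) h.2 with h1 | h1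
    · left
      intro x hx
      rcases List.mem_cons.1 hx with rfl | hx
      · exact (hp _ _ h.1).2 (h1 b (by simp))
      · exact h1 x hx
    · right
      intro x hx
      rcases List.mem_cons.1 hx with rfl | hx
      · exact fun h2 => h1 b (by simp) ((hp _ _ h.1).1 h2)
      · exact h1 x hx

/-- members that have no successor can only be at the end -/
lemma dropLast_not {A : Type*} {r : A → A → Prop} (p : A → Prop)
    (hp : ∀ a b, r a b → ¬ p a) :
    ∀ l : List A, l.IsChain r → ∀ a ∈ l.dropLast, ¬ p a
  | [], _ => by simp
  | [a], _ => by simp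
  | a :: b :: t, h => by
    rw [List.isChain_cons_cons] at h
    intro x hx
    rw [List.dropLast_cons_cons] at hx
    rcases List.mem_cons.1 hx with rfl | hx
    · exact hp _ _ h.1
    · exact dropLast_not p hp (b :: t) h.2 x hx

lemma nodup_length_le {n : ℕ} (l : List (Fin n)) (h : l.Nodup) : l.length ≤ n := by
  have := h.length_le_card
  simpa using this

theorem Good.ext_good (h : Good N G) (hN : 2 ≤ N) : Good (N + 1) (ext G N) := by
  have hcard := h.card
  have dO : ∀ v : V, deg (ext G N) (.inl v) = deg G v + N := deg_old
  have dY : ∀ y : Fin N, deg (ext G N) (.inr (.inl y)) = N ^ 2 := fun y => by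
    rw [deg_Y, hcard]
  have dX : ∀ x : Fin (N + 1), deg (ext G N) (.inr (.inr x)) = N := deg_X
  have hNN : N < N ^ 2 := by nlinarith
  refine ⟨?_, ?_, ?_, ?_, ?_⟩
  · rw [Nat.card_sum, Nat.card_sum, hcard]
    simp
    ring
  · rintro (v | y | x)
    · rw [dO]; omega
    · rw [dY]; omega
    · rw [dX]; omega
  · have e : (N + 1) ^ 2 = N ^ 2 + 2 * N + 1 := by ring
    rintro (v | y | x)
    · rw [dO, e]; have := h.lt v; omega
    · rw [dY, e]; omega
    · rw [dX, e]; omega
  · intro l hl hc
    rcases all_or_none (r := up (ext G N)) (fun a => ∃ x, a = Sum.inr (Sum.inr x)) (by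
      rintro (v | y | x) (v' | y' | x') ⟨hadj, -⟩ <;> simp_all [ext]) l hc with hX | hX
    · obtain ⟨l₀, rfl⟩ := exists_map (fun x : Fin (N + 1) => (Sum.inr (Sum.inr x) : V ⊕ _)) l hX
      rw [List.length_map]
      exact nodup_length_le _ (List.Nodup.of_map _ hl)
    · have h2 := dropLast_not (r := up (ext G N)) (fun a => ∃ y, a = Sum.inr (Sum.inl y)) (by
        rintro a b ⟨hadj, hle⟩ ⟨y, rfl⟩
        rcases b with (v | y' | x')
        · rw [dY, dO] at hle
          have := h.lt v
          omega
        · simp [ext] at hadj
        · simp [ext] at hadj) l hc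
      have h3 : ∀ a ∈ l.dropLast, ∃ v, a = Sum.inl v := by
        intro a ha
        rcases a with (v | y | x)
        · exact ⟨v, rfl⟩
        · exact absurd ⟨y, rfl⟩ (h2 _ ha)
        · exact absurd ⟨x, rfl⟩ (hX _ (List.dropLast_subset _ ha))
      obtain ⟨l₀, hl₀⟩ := exists_map _ _ h3
      have h4 : l₀.length ≤ N := by
        apply h.no1
        · have : l.dropLast.Nodup := hl.sublist (List.dropLast_sublist _)
          rw [hl₀] at this
          exact List.Nodup.of_map _ this
        · have : l.dropLast.IsChain (up (ext G N)) := hc.dropLast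
          rw [hl₀, List.isChain_map] at this
          refine this.imp ?_
          rintro a b ⟨h5, h6⟩
          rw [dO, dO] at h6
          exact ⟨h5, by omega⟩
      have h5 := congrArg List.length hl₀
      rw [List.length_dropLast, List.length_map] at h5
      omega
  · intro l hl hc
    have h2 := dropLast_not (r := fun a b => dn (ext G N) a b ∧ a ≠ b)
      (fun a => ∃ y, a = Sum.inr (Sum.inr y)) (by
        rintro a b ⟨⟨hadj, hle⟩, hne⟩ ⟨x, rfl⟩
        rcases b with (v | y' | x')
        · rw [dX, dO] at hle
          have := h.pos v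
          omega
        · rw [dX, dY] at hle
          omega
        · apply hadj
          simp only [ne_eq, Sum.inr.injEq] at hne
          simpa [ext] using hne) l (by
        have h6 : l.IsChain (fun a b => a ≠ b) := List.Pairwise.isChain hl
        clear h
        induction l with
        | nil => simp
        | cons a t ih =>
          cases t with
          | nil => simp
          | cons b t =>
            rw [List.isChain_cons_cons] at hc h6 ⊢
            exact ⟨⟨hc.1, h6.1⟩, ih (List.Nodup.of_cons hl) hc.2 h6.2⟩)
    have hc' : l.dropLast.IsChain (dn (ext G N)) := hc.dropLast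
    have hnd : l.dropLast.Nodup := hl.sublist (List.dropLast_sublist _)
    have hlen : l.dropLast.length ≤ N := by
      rcases all_or_none (r := fun a b => dn (ext G N) a b ∧
          (∀ x, a ≠ Sum.inr (Sum.inr x)) ∧ (∀ x, b ≠ Sum.inr (Sum.inr x)))
          (fun a => ∃ v, a = Sum.inl v) (by
        rintro (v | y | x) (v' | y' | x') ⟨⟨hadj, -⟩, h7, h8⟩ <;> simp_all [ext]) l.dropLast (by
          revert hc' h2
          generalize l.dropLast = l'
          intro h2 hc'
          clear * - hc' h2
          induction l' with
          | nil => simp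
          | cons a t ih =>
            cases t with
            | nil => simp
            | cons b t =>
              rw [List.isChain_cons_cons] at hc' ⊢
              refine ⟨⟨hc'.1, ?_, ?_⟩, ih (fun x hx => h2 x (List.mem_cons_of_mem _ hx)) hc'.2⟩
              · intro x hx
                exact h2 a (by simp) ⟨x, hx⟩
              · intro x hx
                exact h2 b (by simp) ⟨x, hx⟩) with hV | hV
      · obtain ⟨l₀, hl₀⟩ := exists_map _ _ hV
        have : l₀.length ≤ N := by
          apply h.no2
          · rw [hl₀] at hnd
            exact List.Nodup.of_map _ hnd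
          · rw [hl₀, List.isChain_map] at hc'
            refine hc'.imp ?_
            rintro a b ⟨h5, h6⟩
            rw [dO, dO] at h6
            exact ⟨h5, by omega⟩
        rw [hl₀, List.length_map]
        exact this
      · have h3 : ∀ a ∈ l.dropLast, ∃ y : Fin N, a = Sum.inr (Sum.inl y) := by
          intro a ha
          rcases a with (v | y | x)
          · exact absurd ⟨v, rfl⟩ (hV _ ha)
          · exact ⟨y, rfl⟩
          · exact absurd ⟨x, rfl⟩ (h2 _ ha)
        obtain ⟨l₀, hl₀⟩ := exists_map _ _ h3
        rw [hl₀, List.length_map]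
        rw [hl₀] at hnd
        exact nodup_length_le _ (List.Nodup.of_map _ hnd)
    rw [List.length_dropLast] at hlen
    omega

end Pool.Agent.Q293.MDM
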