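import Pool.Agent.Q293.MDM.Base

/-! # Colourings, degree-monotone paths, and the upper bound -/

set_option autoImplicit false

namespace Pool.Agent.Q293.MDM

/-- The graph `G_j` of a colouring `c` of the edges of the complete graph on `V` with two colours: all
vertices, and the edges of colour `j`. -/
def colourGraph {V : Type*} (c : Sym2 V → Fin 2) (j : Fin 2) : SimpleGraph V where
  Adj u v := u ≠ v ∧ c s(u, v) = j
  symm := ⟨fun u v h => ⟨h.1.symm, by rw [Sym2.eq_swap]; exact h.2⟩⟩
  loopless := ⟨fun _ h => h.1 rfl⟩

/-- The list `l` of vertices is a degree-monotone path of the graph `G`. -/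
def IsDMPath {V : Type*} (G : SimpleGraph V) (l : List V) : Prop :=
  l.Nodup ∧ l.IsChain (fun u v => G.Adj u v ∧ deg G u ≤ deg G v)

/-- Every colouring of the edges of `K_n` with two colours has a monochromatic degree-monotone path of
order `m`. -/
def Forced (n m : ℕ) : Prop :=
  ∀ c : Sym2 (Fin n) → Fin 2, ∃ (j : Fin 2) (l : List (Fin n)), l.length = m ∧
    IsDMPath (colourGraph c j) l

open Classical in
/-- the longest path with increasing keys that ends in `v`, minus one (if all have at most `m`) -/
noncomputable def lam {V : Type*} (r : V → V → Prop) (m : ℕ) (v : V) : ℕ :=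
  Nat.findGreatest (fun k => ∃ t : List V, t.length = k ∧ (v :: t).IsChain (fun a b => r b a)) m

open Classical in
lemma lam_lt {V : Type*} {r : V → V → Prop} {m : ℕ} (hm : 1 ≤ m)
    (h : ∀ l : List V, l.IsChain (fun a b => r b a) → l.length ≠ m) (v : V) : lam r m v + 1 < m := by
  have h1 : ∃ t : List V, t.length = lam r m v ∧ (v :: t).IsChain (fun a b => r b a) := by
    apply Nat.findGreatest_spec (P := fun k => ∃ t : List V, t.length = k ∧
      (v :: t).IsChain (fun a b => r b a)) (m := 0) (Nat.zero_le m)
    exact ⟨[], rfl, by simp⟩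
  obtain ⟨t, ht, hc⟩ := h1
  by_contra hlt
  refine h ((v :: t).take m) (hc.take m) ?_
  rw [List.length_take, List.length_cons, ht]
  omega

open Classical in
lemma lam_succ_le {V : Type*} {r : V → V → Prop} {m : ℕ} (hm : 1 ≤ m)
    (h : ∀ l : List V, l.IsChain (fun a b => r b a) → l.length ≠ m) {u v : V} (huv : r u v) :
    lam r m u < lam r m v := by
  have h1 : ∃ t : List V, t.length = lam r m u ∧ (u :: t).IsChain (fun a b => r b a) := by
    apply Nat.findGreatest_spec (P := fun k => ∃ t : List V, t.length = k ∧
      (u :: t).IsChain (fun a b => r b a)) (m := 0) (Nat.zero_le m)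
    exact ⟨[], rfl, by simp⟩
  obtain ⟨t, ht, hc⟩ := h1
  have h2 := lam_lt hm h u
  have h3 : lam r m u + 1 ≤ lam r m v := by
    apply Nat.le_findGreatest
    · omega
    · exact ⟨u :: t, by simp [ht], by
        rw [List.isChain_cons_cons]
        exact ⟨huv, hc⟩⟩
  omega

/-- the key relation of a graph on `Fin n` -/
def keyRel {n : ℕ} (G : SimpleGraph (Fin n)) (u v : Fin n) : Prop :=
  G.Adj u v ∧ (deg G u < deg G v ∨ (deg G u = deg G v ∧ u < v))

lemma keyRel_path {n : ℕ} (G : SimpleGraph (Fin n)) (l : List (Fin n))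
    (h : l.IsChain (fun a b => keyRel G b a)) : IsDMPath G l.reverse := by
  constructor
  · rw [List.nodup_reverse]
    have h2 : l.IsChain (fun a b => deg G b < deg G a ∨ (deg G b = deg G a ∧ b < a)) :=
      h.imp (fun a b hab => hab.2)
    letI tr : Trans (fun a b : Fin n => deg G b < deg G a ∨ (deg G b = deg G a ∧ b < a))
        (fun a b : Fin n => deg G b < deg G a ∨ (deg G b = deg G a ∧ b < a))
        (fun a b : Fin n => deg G b < deg G a ∨ (deg G b = deg G a ∧ b < a)) :=
      ⟨fun {a b c} hab hbc => by
        rcases hab with hab | ⟨hab, hab'⟩ <;> rcases hbc with hbc | ⟨hbc, hbc'⟩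
        · left; omega
        · left; omega
        · left; omega
        · right; exact ⟨by omega, hbc'.trans hab'⟩⟩
    rw [List.isChain_iff_pairwise] at h2
    refine h2.imp ?_
    rintro a b hab rfl
    rcases hab with hab | ⟨_, hab⟩
    · omega
    · exact lt_irrefl _ hab
  · rw [List.isChain_reverse]
    refine h.imp ?_
    rintro a b ⟨h1, h2⟩
    exact ⟨h1, by omega⟩

/-- the upper bound -/
theorem forced_of_lt {n m : ℕ} (hm : 1 ≤ m) (hn : (m - 1) ^ 2 < n) : Forced n m := by
  intro c
  by_contra hno
  push Not at hno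
  have hj : ∀ j : Fin 2, ∀ l : List (Fin n), l.IsChain (fun a b => keyRel (colourGraph c j) b a) →
      l.length ≠ m := by
    intro j l hl hlen
    exact hno j l.reverse (by simpa using hlen) (keyRel_path _ l hl)
  let f : Fin n → Fin (m - 1) × Fin (m - 1) := fun v =>
    (⟨lam (keyRel (colourGraph c 0)) m v, by have := lam_lt hm (hj 0) v; omega⟩,
     ⟨lam (keyRel (colourGraph c 1)) m v, by have := lam_lt hm (hj 1) v; omega⟩)
  have hinj : Function.Injective f := by
    intro u v huv
    by_contra hne
    simp only [f, Prod.mk.injEq, Fin.mk.injEq] at huv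
    obtain ⟨h0, h1⟩ := huv
    have key : ∀ j : Fin 2, c s(u, v) = j →
        keyRel (colourGraph c j) u v ∨ keyRel (colourGraph c j) v u := by
      intro j hcj
      rcases lt_trichotomy (deg (colourGraph c j) u) (deg (colourGraph c j) v) with h | h | h
      · left; exact ⟨⟨hne, hcj⟩, Or.inl h⟩
      · rcases lt_or_gt_of_ne hne with h' | h'
        · left; exact ⟨⟨hne, hcj⟩, Or.inr ⟨h, h'⟩⟩
        · right; exact ⟨⟨Ne.symm hne, by rw [Sym2.eq_swap]; exact hcj⟩, Or.inr ⟨h.symm, h'⟩⟩
      · right; exact ⟨⟨Ne.symm hne, by rw [Sym2.eq_swap]; exact hcj⟩, Or.inl h⟩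
    have h01 : c s(u, v) = 0 ∨ c s(u, v) = 1 := by
      generalize c s(u, v) = x
      fin_cases x <;> simp
    rcases h01 with h | h
    · rcases key 0 h with h' | h'
      · have := lam_succ_le hm (hj 0) h'; omega
      · have := lam_succ_le hm (hj 0) h'; omega
    · rcases key 1 h with h' | h'
      · have := lam_succ_le hm (hj 1) h'; omega
      · have := lam_succ_le hm (hj 1) h'; omega
  have hcard := Fintype.card_le_of_injective f hinj
  simp only [Fintype.card_fin, Fintype.card_prod] at hcard
  nlinarith

/-- transfer of a good graph to a colouring of `K_{N²}` -/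
theorem not_forced {N : ℕ} (hN : 6 ≤ N) : ¬ Forced (N ^ 2) (N + 1) := by
  obtain ⟨V, hV, G, hG⟩ := exists_good N hN
  haveI : Fintype V := Fintype.ofFinite V
  have hc : Fintype.card V = N ^ 2 := by rw [← Nat.card_eq_fintype_card]; exact hG.card
  let e : V ≃ Fin (N ^ 2) := Fintype.equivFinOfCardEq hc
  intro hF
  classical
  obtain ⟨j, l, hlen, hnd, hch⟩ := hF (fun s => if s ∈ (G.map e.toEmbedding).edgeSet then 0 else 1)
  set c : Sym2 (Fin (N ^ 2)) → Fin 2 := fun s => if s ∈ (G.map e.toEmbedding).edgeSet then 0 else 1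
    with hcdef
  have hadj : ∀ u v : Fin (N ^ 2), (colourGraph c 0).Adj u v ↔ G.Adj (e.symm u) (e.symm v) := by
    intro u v
    have h1 : (G.map e.toEmbedding).Adj u v ↔ G.Adj (e.symm u) (e.symm v) := by
      rw [SimpleGraph.map_adj]
      constructor
      · rintro ⟨a, b, hab, rfl, rfl⟩
        simpa using hab
      · intro h
        exact ⟨_, _, h, by simp, by simp⟩
    constructor
    · rintro ⟨_, h2⟩
      simp only [hcdef] at h2
      by_contra h3
      rw [if_neg] at h2
      · exact absurd h2 (by decide)
      · rw [SimpleGraph.mem_edgeSet, h1]; exact h3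
    · intro h
      refine ⟨?_, ?_⟩
      · rintro rfl; exact G.loopless.irrefl _ h
      · simp only [hcdef]
        rw [if_pos]
        rw [SimpleGraph.mem_edgeSet, h1]; exact h
  have hadj1 : ∀ u v : Fin (N ^ 2), (colourGraph c 1).Adj u v ↔
      u ≠ v ∧ ¬ G.Adj (e.symm u) (e.symm v) := by
    intro u v
    rw [← hadj]
    constructor
    · rintro ⟨h1, h2⟩
      refine ⟨h1, ?_⟩
      rintro ⟨_, h3⟩
      rw [h2] at h3
      exact absurd h3 (by decide)
    · rintro ⟨h1, h2⟩
      refine ⟨h1, ?_⟩
      by_contra h3
      apply h2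
      refine ⟨h1, ?_⟩
      revert h3
      generalize c s(u, v) = x
      fin_cases x <;> simp
  have hdeg0 : ∀ u, deg (colourGraph c 0) u = deg G (e.symm u) := by
    intro u
    unfold deg
    have : (colourGraph c 0).neighborSet u = e '' (G.neighborSet (e.symm u)) := by
      ext v
      rw [SimpleGraph.mem_neighborSet, hadj, Set.mem_image]
      constructor
      · intro h
        exact ⟨_, h, by simp⟩
      · rintro ⟨a, ha, rfl⟩
        simpa using ha
    rw [this, Set.ncard_image_of_injective _ e.injective]
  have hdeg1 : ∀ u, deg (colourGraph c 1) u + deg G (e.symm u) + 1 = N ^ 2 := by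
    intro u
    rw [← hdeg0]
    unfold deg
    have h1 : ((colourGraph c 1).neighborSet u ∪ (colourGraph c 0).neighborSet u) ∪ {u} =
        Set.univ := by
      ext v
      simp only [Set.mem_union, SimpleGraph.mem_neighborSet, Set.mem_singleton_iff, Set.mem_univ,
        iff_true]
      rw [hadj1, hadj]
      by_cases h : v = u
      · right; exact h
      · left
        by_cases h' : G.Adj (e.symm u) (e.symm v)
        · right; exact h'
        · left; exact ⟨Ne.symm h, h'⟩
    have h2 := congrArg Set.ncard h1
    rw [Set.ncard_union_eq ?_ (Set.toFinite _) (Set.toFinite _),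
      Set.ncard_union_eq ?_ (Set.toFinite _) (Set.toFinite _), Set.ncard_singleton,
      Set.ncard_univ, Nat.card_fin] at h2
    · exact h2
    · rw [Set.disjoint_left]
      intro v hv hv'
      rw [SimpleGraph.mem_neighborSet, hadj1] at hv
      rw [SimpleGraph.mem_neighborSet, hadj] at hv'
      exact hv.2 hv'
    · rw [Set.disjoint_right]
      rintro v hv (hv' | hv')
      · rw [Set.mem_singleton_iff] at hv
        subst hv
        exact (colourGraph c 1).loopless.irrefl _ hv'
      · rw [Set.mem_singleton_iff] at hv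
        subst hv
        exact (colourGraph c 0).loopless.irrefl _ hv'
  have hj : j = 0 ∨ j = 1 := by fin_cases j <;> simp
  rcases hj with rfl | rfl
  · have := hG.no1 (l.map e.symm) (hnd.map e.symm.injective) (by
      rw [List.isChain_map]
      refine hch.imp ?_
      rintro u v ⟨h1, h2⟩
      rw [hdeg0, hdeg0] at h2
      exact ⟨(hadj u v).1 h1, h2⟩)
    rw [List.length_map, hlen] at this
    omega
  · have := hG.no2 (l.map e.symm) (hnd.map e.symm.injective) (by
      rw [List.isChain_map]
      refine hch.imp ?_
      rintro u v ⟨h1, h2⟩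
      have h3 := hdeg1 u
      have h4 := hdeg1 v
      exact ⟨((hadj1 u v).1 h1).2, by omega⟩)
    rw [List.length_map, hlen] at this
    omega

end Pool.Agent.Q293.MDM
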